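import Mathlib
import Pool.Agent.H88.L.W292.FM.Ax

/-!
The cyclotomic tower over `ℚ_[p]`: ramification and the normalised trace.
-/

set_option linter.unusedSectionVars false

namespace Pool.Agent.W292.FM

open Polynomial

section Ultra

variable {E : Type*} [NormedField E] [IsUltrametricDist E]

/-- In an ultrametric field, a finite family whose nonzero members have distinct absolute values is
such that the sum has the maximal absolute value. -/
theorem norm_le_norm_sum_of_norm_ne {ι : Type*} (s : Finset ι) (f : ι → E)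
    (hd : ∀ i ∈ s, ∀ j ∈ s, i ≠ j → f i ≠ 0 → f j ≠ 0 → ‖f i‖ ≠ ‖f j‖) {k : ι} (hk : k ∈ s) :
    ‖f k‖ ≤ ‖∑ i ∈ s, f i‖ := by
  classical
  obtain ⟨i, hi, hmax⟩ := s.exists_max_image (fun i => ‖f i‖) ⟨k, hk⟩
  refine (hmax k hk).trans ?_
  rcases eq_or_ne (f i) 0 with h0 | h0
  · simp [h0]
  rw [← Finset.add_sum_erase _ _ hi]
  have hlt : ‖∑ j ∈ s.erase i, f j‖ < ‖f i‖ := by
    rcases (s.erase i).eq_empty_or_nonempty with he | hne'
    · rw [he, Finset.sum_empty, norm_zero]; exact norm_pos_iff.2 h0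
    · obtain ⟨j, hj, hle⟩ := IsUltrametricDist.exists_norm_finsetSum_le_of_nonempty hne' f
      refine lt_of_le_of_lt hle ?_
      rcases eq_or_ne (f j) 0 with h1 | h1
      · simp only [h1, norm_zero]; exact norm_pos_iff.2 h0
      · exact lt_of_le_of_ne (hmax j (Finset.mem_of_mem_erase hj))
          (hd j (Finset.mem_of_mem_erase hj) i hi (Finset.ne_of_mem_erase hj) h1 h0)
  have : ‖f i + ∑ j ∈ s.erase i, f j‖ = ‖f i‖ := by
    rw [IsUltrametricDist.norm_add_eq_max_of_norm_ne_norm hlt.ne', max_eq_left hlt.le]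
  rw [this]

end Ultra

variable (p : ℕ) [hp : Fact p.Prime]

variable {p} in
theorem norm_rootOfUnity {z : PadicAlgCl p} {m : ℕ} (hm : m ≠ 0) (h : z ^ m = 1) : ‖z‖ = 1 := by
  have : ‖z‖ ^ m = 1 := by rw [← norm_pow, h, norm_one]
  exact (pow_eq_one_iff_of_nonneg (norm_nonneg _) hm).1 this

variable {p} in
theorem norm_pow_sub_one_le {z : PadicAlgCl p} (hz : ‖z‖ = 1) (k : ℕ) : ‖z ^ k - 1‖ ≤ ‖z - 1‖ := by
  have h : z ^ k - 1 = (∑ i ∈ Finset.range k, z ^ i) * (z - 1) := (geom_sum_mul z k).symm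
  rw [h, norm_mul]
  have h1 : ‖∑ i ∈ Finset.range k, z ^ i‖ ≤ 1 := by
    refine IsUltrametricDist.norm_sum_le_of_forall_le_of_nonneg zero_le_one ?_
    intro i _
    rw [norm_pow, hz, one_pow]
  calc ‖∑ i ∈ Finset.range k, z ^ i‖ * ‖z - 1‖ ≤ 1 * ‖z - 1‖ :=
        mul_le_mul_of_nonneg_right h1 (norm_nonneg _)
    _ = ‖z - 1‖ := one_mul _

variable {p} in
theorem norm_sub_one_eq {z w : PadicAlgCl p} {m : ℕ} (hm : m ≠ 0) (hz : IsPrimitiveRoot z m)
    (hw : IsPrimitiveRoot w m) : ‖z - 1‖ = ‖w - 1‖ := by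
  have : NeZero m := ⟨hm⟩
  obtain ⟨i, _, _, hi⟩ := (hz.isPrimitiveRoot_iff (k := m)).1 hw
  obtain ⟨j, _, _, hj⟩ := (hw.isPrimitiveRoot_iff (k := m)).1 hz
  apply le_antisymm
  · rw [← hj]
    exact norm_pow_sub_one_le (norm_rootOfUnity hm hw.pow_eq_one) j
  · rw [← hi]
    exact norm_pow_sub_one_le (norm_rootOfUnity hm hz.pow_eq_one) i

variable {p} in
/-- `‖ζ - 1‖ ^ φ(p ^ n) = 1 / p` for a primitive `p ^ n`-th root of unity, `n ≥ 1`. -/
theorem norm_sub_one_pow_totient {z : PadicAlgCl p} {n : ℕ} (hz : IsPrimitiveRoot z (p ^ (n + 1))) :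
    ‖z - 1‖ ^ (Nat.totient (p ^ (n + 1))) = (p : ℝ)⁻¹ := by
  have hp0 : p ^ (n + 1) ≠ 0 := pow_ne_zero _ (Fact.out : p.Prime).ne_zero
  have h1 : Polynomial.cyclotomic (p ^ (n + 1)) (PadicAlgCl p) =
      ∏ μ ∈ primitiveRoots (p ^ (n + 1)) (PadicAlgCl p), (Polynomial.X - Polynomial.C μ) :=
    Polynomial.cyclotomic_eq_prod_X_sub_primitiveRoots hz
  have h2 : Polynomial.eval 1 (Polynomial.cyclotomic (p ^ (n + 1)) (PadicAlgCl p)) = p :=
    Polynomial.eval_one_cyclotomic_prime_pow n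
  rw [h1, Polynomial.eval_prod] at h2
  simp only [Polynomial.eval_sub, Polynomial.eval_X, Polynomial.eval_C] at h2
  have h3 := congrArg norm h2
  rw [norm_prod] at h3
  have h4 : ∏ μ ∈ primitiveRoots (p ^ (n + 1)) (PadicAlgCl p), ‖1 - μ‖ =
      ∏ μ ∈ primitiveRoots (p ^ (n + 1)) (PadicAlgCl p), ‖z - 1‖ := by
    refine Finset.prod_congr rfl fun μ hμ => ?_
    rw [norm_sub_rev]
    exact norm_sub_one_eq hp0 ((mem_primitiveRoots (Nat.pos_of_ne_zero hp0)).1 hμ) hz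
  rw [h4, Finset.prod_const, hz.card_primitiveRoots, norm_natCast_alg, Padic.norm_p] at h3
  exact h3

variable {p} in
theorem norm_term_ne {z : PadicAlgCl p} {n : ℕ} (hz : IsPrimitiveRoot z (p ^ (n + 1)))
    {a b : ℚ_[p]} (ha : a ≠ 0) (hb : b ≠ 0) {i j : ℕ} (hi : i < Nat.totient (p ^ (n + 1)))
    (hj : j < Nat.totient (p ^ (n + 1))) (hij : i ≠ j) :
    ‖algebraMap ℚ_[p] (PadicAlgCl p) a * (z - 1) ^ i‖ ≠
      ‖algebraMap ℚ_[p] (PadicAlgCl p) b * (z - 1) ^ j‖ := by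
  set e := Nat.totient (p ^ (n + 1)) with he
  have hpow := norm_sub_one_pow_totient hz
  rw [← he] at hpow
  intro h
  have hp1 : (1 : ℝ) < p := one_lt_p p
  have hp0 : (0 : ℝ) < p := by linarith
  rw [norm_mul, norm_mul, norm_pow, norm_pow] at h
  have ha' : ‖algebraMap ℚ_[p] (PadicAlgCl p) a‖ = ‖a‖ := PadicAlgCl.norm_extends p a
  have hb' : ‖algebraMap ℚ_[p] (PadicAlgCl p) b‖ = ‖b‖ := PadicAlgCl.norm_extends p b
  rw [ha', hb', Padic.norm_eq_zpow_neg_valuation ha, Padic.norm_eq_zpow_neg_valuation hb] at h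
  have h2 := congrArg (fun x => x ^ e) h
  simp only [mul_pow] at h2
  rw [← pow_mul, ← pow_mul, mul_comm i e, mul_comm j e, pow_mul, pow_mul, hpow,
    ← zpow_natCast, ← zpow_natCast, ← zpow_natCast, ← zpow_natCast, ← zpow_mul, ← zpow_mul,
    inv_zpow', inv_zpow', ← zpow_add₀ hp0.ne', ← zpow_add₀ hp0.ne'] at h2
  have h3 := zpow_right_injective₀ hp0 hp1.ne' h2
  have hdvd : (e : ℤ) ∣ ((i : ℤ) - (j : ℤ)) := ⟨b.valuation - a.valuation, by linarith⟩
  have habs : |(i : ℤ) - (j : ℤ)| < e := by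
    rw [abs_lt]
    constructor <;> omega
  have := Int.eq_zero_of_abs_lt_dvd hdvd habs
  omega

variable {p} in
/-- Each term of an expansion in powers of `ζ - 1` is bounded by the sum. -/
theorem norm_term_le {z : PadicAlgCl p} {n : ℕ} (hz : IsPrimitiveRoot z (p ^ (n + 1)))
    (a : ℕ → ℚ_[p]) {i : ℕ} (hi : i < Nat.totient (p ^ (n + 1))) :
    ‖algebraMap ℚ_[p] (PadicAlgCl p) (a i) * (z - 1) ^ i‖ ≤
      ‖∑ j ∈ Finset.range (Nat.totient (p ^ (n + 1))),
        algebraMap ℚ_[p] (PadicAlgCl p) (a j) * (z - 1) ^ j‖ := by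
  refine norm_le_norm_sum_of_norm_ne _ (fun j => algebraMap ℚ_[p] (PadicAlgCl p) (a j) *
    (z - 1) ^ j) ?_ (Finset.mem_range.2 hi)
  intro i hi j hj hij h1 h2
  refine norm_term_ne hz ?_ ?_ (Finset.mem_range.1 hi) (Finset.mem_range.1 hj) hij
  · rintro h0; apply h1; simp [h0]
  · rintro h0; apply h2; simp [h0]

end Pool.Agent.W292.FM
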