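import Mathlib

/-!
Functoriality of Fontaine's period rings `BDeRhamPlus R p` and `BDeRham R p` for ring
automorphisms of `R`.
-/

set_option linter.unusedSectionVars false

namespace Pool.Agent.W292.FM

open Ideal WittVector

universe u

variable {R : Type u} [CommRing R] (p : ℕ) [hp : Fact p.Prime] [Fact (¬ IsUnit (p : R))]

theorem map_mem_span_pow (e : R ≃+* R) (n : ℕ) {x : R} (hx : x ∈ span {(p : R)} ^ n) :
    e x ∈ span {(p : R)} ^ n := by
  rw [Ideal.span_singleton_pow, Ideal.mem_span_singleton] at hx ⊢
  obtain ⟨y, rfl⟩ := hx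
  exact ⟨e y, by simp⟩

theorem span_le_comap (e : R ≃+* R) :
    span {(p : R)} ≤ (span {(p : R)}).comap (e : R →+* R) := by
  intro x hx
  have := map_mem_span_pow p e 1 (x := x) (by simpa using hx)
  simpa using this

/-- The automorphism of `R / p` induced by an automorphism of `R`. -/
noncomputable def modPMap (e : R ≃+* R) : ModP R p →+* ModP R p :=
  Ideal.quotientMap _ (e : R →+* R) (span_le_comap p e)

@[simp] theorem modPMap_mk (e : R ≃+* R) (x : R) :
    modPMap p e (Ideal.Quotient.mk _ x) = Ideal.Quotient.mk _ (e x) := rfl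

/-- The automorphism of the tilt induced by an automorphism of `R`. -/
noncomputable def tiltMap (e : R ≃+* R) : PreTilt R p →+* PreTilt R p :=
  Perfection.map p (modPMap p e)

@[simp] theorem coeff_tiltMap (e : R ≃+* R) (x : PreTilt R p) (n : ℕ) :
    PreTilt.coeff n (tiltMap p e x) = modPMap p e (PreTilt.coeff n x) :=
  Perfection.coeff_map p (modPMap p e) x n

variable [IsAdicComplete (span {(p : R)}) R]

theorem untilt_tiltMap (e : R ≃+* R) (x : PreTilt R p) :
    (tiltMap p e x).untilt = e x.untilt := by
  refine Perfection.teichmuller_spec fun n => ?_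
  obtain ⟨y, hy⟩ := Ideal.Quotient.mk_surjective (PreTilt.coeff n x)
  refine ⟨e y, ?_, ?_⟩
  · change _ = PreTilt.coeff n (tiltMap p e x)
    rw [coeff_tiltMap, ← hy, modPMap_mk]
  · have h := Perfection.teichmuller_sModEq (x := x) (y := y) (n := n) hy
    rw [SModEq.sub_mem] at h ⊢
    rw [← map_pow, ← map_sub]
    have h2 := (span {(p : R)} ^ (n + 1)).neg_mem h
    rw [neg_sub] at h2
    exact map_mem_span_pow p e (n + 1) h2

/-- Equivariance of Fontaine's theta map. -/
theorem theta_map (e : R ≃+* R) (x : WittVector p (PreTilt R p)) :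
    fontaineTheta R p (WittVector.map (tiltMap p e) x) = e (fontaineTheta R p x) := by
  rw [IsHausdorff.eq_iff_smodEq (I := span {(p : R)})]
  intro n
  rw [smul_eq_mul, Ideal.mul_top]
  have key : ((Ideal.Quotient.mk (span {(p : R)} ^ n)).comp (fontaineTheta R p)).comp
      (WittVector.map (tiltMap p e)) =
      ((Ideal.Quotient.mk (span {(p : R)} ^ n)).comp (e : R →+* R)).comp (fontaineTheta R p) := by
    refine WittVector.eq_of_apply_teichmuller_eq _ _ ⟨n, ?_⟩ ?_
    · have : ((p : ℕ) : R ⧸ span {(p : R)} ^ n) = Ideal.Quotient.mk _ (p : R) := by simp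
      rw [this, ← map_pow, Ideal.Quotient.eq_zero_iff_mem]
      exact Ideal.pow_mem_pow (Ideal.mem_span_singleton_self _) n
    · intro y
      simp only [RingHom.comp_apply, WittVector.map_teichmuller, fontaineTheta_teichmuller,
        untilt_tiltMap]
      rfl
  have h := congrArg (fun f : WittVector p (PreTilt R p) →+* R ⧸ span {(p : R)} ^ n => f x) key
  rw [SModEq.idealQuotientMk]
  exact h

/-- The automorphism of `W(R♭)[1/p]` induced by an automorphism of `R`. -/
noncomputable def locMap (e : R ≃+* R) :
    Localization.Away (p : WittVector p (PreTilt R p)) →+*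
      Localization.Away (p : WittVector p (PreTilt R p)) :=
  IsLocalization.map (M := Submonoid.powers (p : WittVector p (PreTilt R p)))
    (T := Submonoid.powers (p : WittVector p (PreTilt R p)))
    (Localization.Away (p : WittVector p (PreTilt R p)))
    (WittVector.map (tiltMap p e)) (by
      rintro _ ⟨n, rfl⟩
      exact ⟨n, by simp⟩)

theorem locMap_algebraMap (e : R ≃+* R) (x : WittVector p (PreTilt R p)) :
    locMap p e (algebraMap _ _ x) = algebraMap _ _ (WittVector.map (tiltMap p e) x) :=
  IsLocalization.map_eq _ _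

theorem thetaInvertP_algebraMap (x : WittVector p (PreTilt R p)) :
    fontaineThetaInvertP R p (algebraMap _ _ x) = algebraMap R _ (fontaineTheta R p x) := by
  unfold fontaineThetaInvertP Localization.awayLift
  exact IsLocalization.Away.lift_eq _ _ _

/-- The automorphism of `R[1/p]` induced by an automorphism of `R`. -/
noncomputable def locRMap (e : R ≃+* R) : Localization.Away (p : R) →+* Localization.Away (p : R) :=
  IsLocalization.map (M := Submonoid.powers (p : R)) (T := Submonoid.powers (p : R))
    (Localization.Away (p : R)) (e : R →+* R) (by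
      rintro _ ⟨n, rfl⟩
      exact ⟨n, by simp⟩)

theorem locRMap_algebraMap (e : R ≃+* R) (x : R) :
    locRMap p e (algebraMap _ _ x) = algebraMap _ _ (e x) :=
  IsLocalization.map_eq _ _

theorem thetaInvertP_locMap (e : R ≃+* R)
    (x : Localization.Away (p : WittVector p (PreTilt R p))) :
    fontaineThetaInvertP R p (locMap p e x) = locRMap p e (fontaineThetaInvertP R p x) := by
  have key : (fontaineThetaInvertP R p).comp (locMap p e) =
      (locRMap p e).comp (fontaineThetaInvertP R p) := by
    refine IsLocalization.ringHom_ext (Submonoid.powers (p : WittVector p (PreTilt R p))) ?_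
    ext x
    simp only [RingHom.comp_apply]
    rw [locMap_algebraMap, thetaInvertP_algebraMap, thetaInvertP_algebraMap, theta_map,
      locRMap_algebraMap]
  exact congrArg (fun f : _ →+* Localization.Away (p : R) => f x) key

theorem locMap_mem_ker (e : R ≃+* R) {x : Localization.Away (p : WittVector p (PreTilt R p))}
    (hx : x ∈ RingHom.ker (fontaineThetaInvertP R p)) :
    locMap p e x ∈ RingHom.ker (fontaineThetaInvertP R p) := by
  rw [RingHom.mem_ker] at hx ⊢
  rw [thetaInvertP_locMap, hx, map_zero]

theorem locMap_locMap_symm (e : R ≃+* R) (x : Localization.Away (p : WittVector p (PreTilt R p))) :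
    locMap p e (locMap p e.symm x) = x := by
  have key : (locMap p e).comp (locMap p e.symm) = RingHom.id _ := by
    refine IsLocalization.ringHom_ext (Submonoid.powers (p : WittVector p (PreTilt R p))) ?_
    ext x
    simp only [RingHom.comp_apply, locMap_algebraMap, RingHom.id_apply]
    congr 1
    ext n
    rw [WittVector.map_coeff, WittVector.map_coeff]
    refine Perfection.ext fun m => ?_
    change PreTilt.coeff m _ = PreTilt.coeff m _
    rw [coeff_tiltMap, coeff_tiltMap]
    obtain ⟨y, hy⟩ := Ideal.Quotient.mk_surjective (PreTilt.coeff m (x.coeff n))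
    rw [← hy, modPMap_mk, modPMap_mk, e.apply_symm_apply]
  exact congrArg (fun f : _ →+* Localization.Away (p : WittVector p (PreTilt R p)) => f x) key

/-- The ideal `ker θ` of `W(R♭)[1/p]`. -/
noncomputable abbrev kerT (R : Type u) [CommRing R] (p : ℕ) [hp : Fact p.Prime]
    [Fact (¬ IsUnit (p : R))] [IsAdicComplete (span {(p : R)}) R] :
    Ideal (Localization.Away (p : WittVector p (PreTilt R p))) :=
  RingHom.ker (fontaineThetaInvertP R p)

theorem kerT_pow_le_comap (e : R ≃+* R) (n : ℕ) :
    kerT R p ^ n ≤ (kerT R p ^ n).comap (locMap p e) := by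
  rw [← Ideal.map_le_iff_le_comap, Ideal.map_pow]
  refine Ideal.pow_right_mono ?_ n
  rw [Ideal.map_le_iff_le_comap]
  intro x hx
  exact locMap_mem_ker p e hx

theorem factorPow_evalₐ {S : Type*} [CommRing S] (I : Ideal S) {m n : ℕ} (h : m ≤ n)
    (x : AdicCompletion I S) :
    Ideal.Quotient.factorPow I h (AdicCompletion.evalₐ I n x) = AdicCompletion.evalₐ I m x := by
  obtain ⟨f, rfl⟩ := AdicCompletion.mk_surjective I S x
  rw [AdicCompletion.evalₐ_mk, AdicCompletion.evalₐ_mk]
  exact (AdicCompletion.Ideal.mk_eq_mk I h f)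

section Completion

variable {A : Type u} [CommRing A] (I : Ideal A) (f : A →+* A) (hf : ∀ n, I ^ n ≤ (I ^ n).comap f)

theorem compl_compat {m n : ℕ} (hle : m ≤ n) :
    (Ideal.Quotient.factorPow I hle).comp ((Ideal.quotientMap (I ^ n) f (hf n)).comp
      (AdicCompletion.evalₐ I n : AdicCompletion I A →+* A ⧸ I ^ n)) =
    (Ideal.quotientMap (I ^ m) f (hf m)).comp
      (AdicCompletion.evalₐ I m : AdicCompletion I A →+* A ⧸ I ^ m) := by
  ext x
  simp only [RingHom.comp_apply]
  have h : ∀ y : A ⧸ I ^ n,
      Ideal.Quotient.factorPow I hle (Ideal.quotientMap (I ^ n) f (hf n) y) =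
      Ideal.quotientMap (I ^ m) f (hf m) (Ideal.Quotient.factorPow I hle y) := by
    intro y
    obtain ⟨y, rfl⟩ := Ideal.Quotient.mk_surjective y
    rfl
  erw [h]
  exact congrArg _ (factorPow_evalₐ _ hle x)

/-- The endomorphism of the completion of a ring at an ideal induced by an endomorphism of the
ring that preserves the powers of the ideal. -/
noncomputable def complMap : AdicCompletion I A →+* AdicCompletion I A :=
  AdicCompletion.liftRingHom I
    (fun n => (Ideal.quotientMap (I ^ n) f (hf n)).comp
      (AdicCompletion.evalₐ I n : AdicCompletion I A →+* A ⧸ I ^ n)) (compl_compat I f hf)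

theorem evalₐ_complMap (n : ℕ) (x : AdicCompletion I A) :
    AdicCompletion.evalₐ I n (complMap I f hf x) =
      Ideal.quotientMap (I ^ n) f (hf n) (AdicCompletion.evalₐ I n x) :=
  AdicCompletion.evalₐ_liftRingHom I _ (compl_compat I f hf) n x

end Completion

/-- The automorphism of `BDeRhamPlus R p` induced by an automorphism of `R`. -/
noncomputable def plusMap (e : R ≃+* R) : BDeRhamPlus R p →+* BDeRhamPlus R p :=
  complMap (kerT R p) (locMap p e) (kerT_pow_le_comap p e)

/-- The canonical map from `W(R♭)[1/p]` to `BDeRhamPlus R p`. -/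
noncomputable def toPlus :
    Localization.Away (p : WittVector p (PreTilt R p)) →+* BDeRhamPlus R p :=
  algebraMap (Localization.Away (p : WittVector p (PreTilt R p)))
    (AdicCompletion (kerT R p) (Localization.Away (p : WittVector p (PreTilt R p))))

theorem toPlus_eq_of (x : Localization.Away (p : WittVector p (PreTilt R p))) :
    toPlus p x = AdicCompletion.of (kerT R p) _ x := rfl

/-- The evaluation `BDeRhamPlus R p → W(R♭)[1/p] / (ker θ)^n`. -/
noncomputable def evalP (n : ℕ) : BDeRhamPlus R p →+*
    Localization.Away (p : WittVector p (PreTilt R p)) ⧸ kerT R p ^ n :=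
  (AdicCompletion.evalₐ (kerT R p) n :
        AdicCompletion (kerT R p) (Localization.Away (p : WittVector p (PreTilt R p))) →+* _)

theorem evalP_toPlus (n : ℕ) (x : Localization.Away (p : WittVector p (PreTilt R p))) :
    evalP p n (toPlus p x) = Ideal.Quotient.mk _ x :=
  AdicCompletion.evalₐ_of _ n x

theorem evalP_ext {x y : BDeRhamPlus R p} (h : ∀ n, evalP p n x = evalP p n y) : x = y :=
  AdicCompletion.ext_evalₐ h

theorem evalP_plusMap (e : R ≃+* R) (n : ℕ) (x : BDeRhamPlus R p) :
    evalP p n (plusMap p e x) =
      Ideal.quotientMap (kerT R p ^ n) (locMap p e) (kerT_pow_le_comap p e n) (evalP p n x) :=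
  evalₐ_complMap (kerT R p) (locMap p e) (kerT_pow_le_comap p e) n x

theorem factorPow_evalP {m n : ℕ} (h : m ≤ n) (x : BDeRhamPlus R p) :
    Ideal.Quotient.factorPow (kerT R p) h (evalP p n x) = evalP p m x :=
  factorPow_evalₐ _ h x

theorem plusMap_toPlus (e : R ≃+* R) (x : Localization.Away (p : WittVector p (PreTilt R p))) :
    plusMap p e (toPlus p x) = toPlus p (locMap p e x) := by
  refine evalP_ext p fun n => ?_
  rw [evalP_plusMap, evalP_toPlus, evalP_toPlus]
  rfl

/-- The multiplicative set of `BDeRhamPlus R p` inverted in `BDeRham R p`. -/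
noncomputable abbrev genSub (R : Type u) [CommRing R] (p : ℕ) [hp : Fact p.Prime]
    [Fact (¬ IsUnit (p : R))] [IsAdicComplete (span {(p : R)}) R] :
    Submonoid (BDeRhamPlus R p) :=
  Submonoid.closure (AdicCompletion.of (kerT R p) _ '' {a | kerT R p = Ideal.span {a}})

/-- Mathlib's `BDeRham R p` is the localisation of `BDeRhamPlus R p` at `genSub R p`. -/
theorem bDeRham_eq : BDeRham R p = Localization (genSub R p) := rfl

theorem kerT_eq_span_locMap (e : R ≃+* R)
    {a : Localization.Away (p : WittVector p (PreTilt R p))}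
    (ha : kerT R p = Ideal.span {a}) : kerT R p = Ideal.span {locMap p e a} := by
  apply le_antisymm
  · intro x hx
    have h1 : locMap p e.symm x ∈ kerT R p := locMap_mem_ker p e.symm hx
    rw [ha, Ideal.mem_span_singleton] at h1
    obtain ⟨c, hc⟩ := h1
    rw [Ideal.mem_span_singleton]
    refine ⟨locMap p e c, ?_⟩
    rw [← map_mul, ← hc, locMap_locMap_symm]
  · rw [Ideal.span_singleton_le_iff_mem]
    apply locMap_mem_ker
    rw [← kerT, ha]
    exact Ideal.mem_span_singleton_self a

theorem genSub_le_comap (e : R ≃+* R) : genSub R p ≤ (genSub R p).comap (plusMap p e) := by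
  rw [Submonoid.closure_le]
  rintro _ ⟨a, ha, rfl⟩
  change plusMap p e (toPlus p a) ∈ genSub R p
  rw [plusMap_toPlus]
  exact Submonoid.subset_closure ⟨_, kerT_eq_span_locMap p e ha, rfl⟩

/-- The automorphism of the localisation of `BDeRhamPlus R p` at `genSub R p`, which is
Mathlib's `BDeRham R p`, induced by an automorphism of `R`. -/
noncomputable def bdrMap (e : R ≃+* R) : Localization (genSub R p) →+* Localization (genSub R p) :=
  IsLocalization.map (M := genSub R p) (T := genSub R p) (Localization (genSub R p)) (plusMap p e)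
    (genSub_le_comap p e)

theorem bdrMap_algebraMap (e : R ≃+* R) (x : BDeRhamPlus R p) :
    bdrMap p e (algebraMap _ _ x) = algebraMap _ _ (plusMap p e x) :=
  IsLocalization.map_eq _ _

end Pool.Agent.W292.FM
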